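import Pool.Agent.W286.AZ.Tile

/-!
# Domino tilings of the Aztec diamond with a knight's move pair removed

Cells are elements of `ℤ × ℤ`; the cell `(x, y)` is the closed unit square with centre
`(x + 1/2, y + 1/2)`.  `aztec n` is the Aztec diamond of order `n`, `region n` is the Aztec diamond
without the cells centred at `(-1/2, -1/2)` and `(1/2, 3/2)`, and `tilings n` is its number of
domino tilings (partitions of `region n` into dominoes).

Proof: the two holes are joined by a virtual edge; a row by row count of inversions shows that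
the tilings are counted, up to a global sign, by a determinant which differs from the Kasteleyn
matrix of the Aztec diamond in two rows.  In terms of polynomials the Kasteleyn matrix is
`(x_k) ↦ ((1 - t) x_k + (1 + t) x_{k+1})`; its inverse is written down with Krawtchouk numbers, and
the four entries needed are sums of products of central binomial coefficients that telescope.
-/

set_option autoImplicit false

namespace Pool.Agent.Results.MP_b90a94_co.KnightFormula

open Pool.Agent.W286.AZ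

lemma even_case (d : ℕ) : (tilings (2 * (d + 1)) : ℚ)
    = |Q (2 * (d + 1)) (d + 1) d| / (2 ^ (2 * (d + 1))) ^ 2 * 2 ^ (2 * (d + 1) * (2 * (d + 1) + 1) / 2) := by
  obtain ⟨b0, w0, h1, h2, h3, h4, h5⟩ := tilings_even d
  have hb := b0.2.2
  rw [h5]
  have := Mc_eq b0 (b0.1, ⟨b0.2 + 1, by omega⟩) w0
    (⟨b0.1 - 1, by have := w0.1.2; omega⟩, ⟨b0.2 + 1, by omega⟩) rfl rfl h3 h4
    (by show (b0.1 : ℕ) - 1 + 1 = b0.1; omega) rfl (by omega) (by omega) (by have := w0.2.2; omega)
  rw [h1, h2] at this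
  exact this

lemma odd_case (d : ℕ) : (tilings (2 * (d + 1) + 1) : ℚ)
    = |Q (2 * (d + 1) + 1) (d + 1 + 1) d| / (2 ^ (2 * (d + 1) + 1)) ^ 2 *
      2 ^ ((2 * (d + 1) + 1) * (2 * (d + 1) + 1 + 1) / 2) := by
  obtain ⟨b0, w0, h1, h2, h3, h4, h5⟩ := tilings_odd d
  have hb := b0.2.2
  rw [h5]
  have := Mc_eq b0 (b0.1, ⟨b0.2 + 1, by omega⟩) w0
    (⟨b0.1 - 1, by have := w0.1.2; omega⟩, ⟨b0.2 + 1, by omega⟩) rfl rfl h3 h4
    (by show (b0.1 : ℕ) - 1 + 1 = b0.1; omega) rfl (by omega) (by omega) (by have := w0.2.2; omega)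
  rw [h1, h2] at this
  exact this

lemma PP_nonneg (m : ℕ) : 0 ≤ PP m := by unfold PP; positivity

lemma PP_le_one (m : ℕ) : PP m ≤ 1 := by
  unfold PP
  rw [div_le_one (by positivity)]
  have h : (2 * m).choose m ≤ 4 ^ m := by
    calc (2 * m).choose m ≤ 2 ^ (2 * m) := Nat.choose_le_two_pow _ _
      _ = 4 ^ m := by rw [pow_mul]; norm_num
  have h2 : ((2 * m).choose m : ℚ) ≤ 4 ^ m := by exact_mod_cast h
  calc ((2 * m).choose m : ℚ) ^ 2 ≤ (4 ^ m) ^ 2 := by
        apply pow_le_pow_left₀ (by positivity) h2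
    _ = 16 ^ m := by rw [← pow_mul, mul_comm m 2, pow_mul]; norm_num

/-- **Main theorem.** With `P k = (binomial (2 k) k) ^ 2 / 16 ^ k`, the number of domino tilings of
the Aztec diamond of order `n` with the two cells removed is `2 ^ (n (n + 1) / 2)` times
`(2 m + 1) / 4 * P m` for `n = 4 m + 2`, `(m + 1) / 2 * P (m + 1)` for `n = 4 m + 3`,
`(m + 1) / 2 * P (m + 1) * (1 + P (m + 1))` for `n = 4 m + 4` and
`(2 m + 3) / 4 * P (m + 1) * (1 - P (m + 1))` for `n = 4 m + 5`. -/
theorem result (m : ℕ) :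
    let P : ℕ → ℚ := fun k => ((2 * k).choose k : ℚ) ^ 2 / 16 ^ k
    (tilings (4 * m + 2) : ℚ) = 2 ^ ((4 * m + 2) * (4 * m + 3) / 2) * ((2 * (m : ℚ) + 1) / 4 * P m) ∧
    (tilings (4 * m + 3) : ℚ) = 2 ^ ((4 * m + 3) * (4 * m + 4) / 2) * (((m : ℚ) + 1) / 2 * P (m + 1)) ∧
    (tilings (4 * m + 4) : ℚ) =
      2 ^ ((4 * m + 4) * (4 * m + 5) / 2) * (((m : ℚ) + 1) / 2 * P (m + 1) * (1 + P (m + 1))) ∧
    (tilings (4 * m + 5) : ℚ) =
      2 ^ ((4 * m + 5) * (4 * m + 6) / 2) * ((2 * (m : ℚ) + 3) / 4 * P (m + 1) * (1 - P (m + 1))) := by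
  intro P
  have hP : ∀ k, P k = PP k := fun k => rfl
  have hp0 := PP_nonneg m
  have hp1 := PP_nonneg (m + 1)
  have hp2 := PP_le_one (m + 1)
  rw [hP, hP]
  refine ⟨?_, ?_, ?_, ?_⟩
  · have h := even_case (2 * m)
    rw [Q_even_odd, abs_of_nonneg (by positivity)] at h
    rw [show 4 * m + 2 = 2 * (2 * m + 1) by ring, show 4 * m + 3 = 2 * (2 * m + 1) + 1 by ring, h]
    field_simp
  · have h := odd_case (2 * m)
    rw [Q_odd_odd, abs_of_nonneg (by positivity)] at h
    rw [show 4 * m + 3 = 2 * (2 * m + 1) + 1 by ring, show 4 * m + 4 = 2 * (2 * m + 1) + 1 + 1 by ring, h]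
    field_simp
  · have h := even_case (2 * m + 1)
    rw [Q_even_even, abs_of_nonneg (by positivity)] at h
    rw [show 4 * m + 4 = 2 * (2 * m + 1 + 1) by ring, show 4 * m + 5 = 2 * (2 * m + 1 + 1) + 1 by ring, h]
    field_simp
  · have h := odd_case (2 * m + 1)
    rw [Q_odd_even, abs_of_nonneg (by
      have : 0 ≤ 1 - PP (m + 1) := by linarith
      positivity)] at h
    rw [show 4 * m + 5 = 2 * (2 * m + 1 + 1) + 1 by ring, show 4 * m + 6 = 2 * (2 * m + 1 + 1) + 1 + 1 by ring, h]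
    field_simp
    ring

end Pool.Agent.Results.MP_b90a94_co.KnightFormula
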